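import Mathlib
import Pool.Agent.R537.LR.Stm

/-! LR-SRC2 (MP_d82c50_lc): from the values of the straight-line program to the system.
helper634. -/

set_option autoImplicit false

namespace Pool.Agent.NPC.R537LR

open Pool.Agent.NPC Pool.Agent.NPC.ER

namespace SRC2x

lemma gh1 {v : ℕ → ℝ} {a b k : ℕ} {z : ℤ} (h : GHolds v (1, a, b, k, z)) : v k = (z : ℝ) / 8 := by
  simpa [GHolds] using h

lemma gh2 {v : ℕ → ℝ} {i j k : ℕ} {z : ℤ} (h : GHolds v (2, i, j, k, z)) :
    v i + v j = 2 * v k := by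
  simpa [GHolds] using h

lemma gh3 {v : ℕ → ℝ} {i j k : ℕ} {z : ℤ} (h : GHolds v (3, i, j, k, z)) :
    v i * v j = v k := by
  simpa [GHolds] using h

lemma block {v : ℕ → ℝ} {V : List ℕ} {L b : ℕ} {c : Con}
    (h : ∀ g ∈ pblk V L c b, GHolds v g) (h0 : v L = -1) (h1 : v (L + 1) = -1 / 8)
    (h2 : v (L + 2) = 0) :
    (c.err (fun i => v (V.idxOf i))) ^ 2 ≤ 256 * v (b + 4) ∧ v (b - 1) + v (b + 4) = 2 * v (b + 5) ∧
      0 ≤ v (b + 4) := by
  have e1 := gh3 (h (3, b + 3, b + 3, b + 4, 0) (by unfold pblk; simp))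
  have e2 := gh2 (h (2, b - 1, b + 4, b + 5, 0) (by unfold pblk; simp))
  refine ⟨?_, e2, by rw [← e1]; exact mul_self_nonneg _⟩
  rw [← e1]
  cases c with
  | one i =>
    have e3 := gh2 (h (2, V.idxOf i, L + 1, b + 3, 0) (by unfold pblk; simp))
    simp only [Con.err]
    have e4 : v (V.idxOf i) = 2 * v (b + 3) + 1 / 8 := by linarith
    rw [e4]
    apply le_of_eq
    ring
  | add i j k =>
    have e3 := gh2 (h (2, V.idxOf i, V.idxOf j, b, 0) (by unfold pblk; simp))
    have e4 := gh3 (h (3, V.idxOf k, L, b + 1, 0) (by unfold pblk; simp))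
    have e5 := gh2 (h (2, b + 1, L + 2, b + 2, 0) (by unfold pblk; simp))
    have e6 := gh2 (h (2, b, b + 2, b + 3, 0) (by unfold pblk; simp))
    simp only [Con.err]
    rw [h0] at e4
    rw [h2] at e5
    have e7 : v (V.idxOf i) + v (V.idxOf j) - v (V.idxOf k) = 4 * v (b + 3) := by linarith
    rw [e7]
    nlinarith [mul_self_nonneg (v (b + 3))]
  | mul i j k =>
    have e3 := gh3 (h (3, V.idxOf i, V.idxOf j, b, 0) (by unfold pblk; simp))
    have e4 := gh3 (h (3, V.idxOf k, L, b + 1, 0) (by unfold pblk; simp))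
    have e6 := gh2 (h (2, b, b + 1, b + 3, 0) (by unfold pblk; simp))
    simp only [Con.err]
    rw [h0] at e4
    have e7 : v (V.idxOf i) * v (V.idxOf j) - v (V.idxOf k) = 2 * v (b + 3) := by linarith
    rw [e7]
    nlinarith [mul_self_nonneg (v (b + 3))]

lemma fin_ineq (x : ℝ) (m K : ℕ) (hK : K = 11 * m + 9)
    (h : x ^ 2 ≤ 256 * (2 ^ m * (1 / 2) ^ 2 ^ K)) : |x| * 2 ^ 2 ^ (11 * m + 7) ≤ 1 := by
  have hB : (256 : ℝ) * 2 ^ m ≤ 2 ^ 2 ^ (11 * m + 8) := by
    have h1 : (256 : ℝ) * 2 ^ m = 2 ^ (8 + m) := by rw [pow_add]; norm_num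
    rw [h1]
    apply pow_le_pow_right₀ (by norm_num)
    have : 11 * m + 8 < 2 ^ (11 * m + 8) := Nat.lt_two_pow_self
    omega
  set B : ℝ := 2 ^ 2 ^ (11 * m + 8) with hBdef
  have hBpos : 0 < B := by positivity
  have hA : ((2 : ℝ) ^ 2 ^ (11 * m + 7)) ^ 2 = B := by
    rw [← pow_mul, hBdef]
    congr 1
  have hK2 : ((1 : ℝ) / 2) ^ 2 ^ K = 1 / (B * B) := by
    rw [hK, one_div_pow, hBdef, ← pow_add]
    congr 2
    ring
  rw [hK2] at h
  by_contra hcon
  push Not at hcon
  have h2 : 1 < (|x| * 2 ^ 2 ^ (11 * m + 7)) ^ 2 := one_lt_pow₀ hcon two_ne_zero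
  rw [mul_pow, sq_abs, hA] at h2
  have h3 : x ^ 2 * B ≤ 256 * (2 ^ m * (1 / (B * B))) * B :=
    mul_le_mul_of_nonneg_right h hBpos.le
  have h4 : 256 * (2 ^ m * (1 / (B * B))) * B = (256 * 2 ^ m) / B := by
    field_simp
  rw [h4] at h3
  have h5 : (256 * 2 ^ m) / B ≤ 1 := by
    rw [div_le_one hBpos]; exact hB
  linarith

end SRC2x

open SRC2x in
theorem t_SRC2 : S_SRC2 := by
  intro S v hv hg hpos
  set L := Ls S with hL
  set m := (TS S).length with hm
  have heS : eS S = L + 3 + 6 * m := rfl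
  have hKS : KS S = 11 * m + 9 := rfl
  have hn1 : n1 S = eS S + KS S + 3 := rfl
  have g0 : v L = -1 := by
    have := gh1 (hg (1, 0, 0, Ls S, -8) (by unfold prog; simp))
    rw [this]; norm_num
  have g1 : v (L + 1) = -1 / 8 := by
    have := gh1 (hg (1, 0, 0, Ls S + 1, -1) (by unfold prog; simp))
    rw [this]; norm_num
  have g2 : v (L + 2) = 0 := by
    have := gh1 (hg (1, 0, 0, Ls S + 2, 0) (by unfold prog; simp))
    rw [this]; norm_num
  have gE : v (eS S) = 1 / 2 := by
    have := gh1 (hg (1, 0, 0, eS S, 4) (by unfold prog; simp))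
    rw [this]; norm_num
  have gS : ∀ j < KS S, v (eS S + j + 1) = v (eS S + j) * v (eS S + j) := by
    intro j hj
    have := gh3 (hg (3, eS S + j, eS S + j, eS S + j + 1, 0) (by
      unfold prog
      refine List.mem_append_right _ (List.mem_append_right _ (List.mem_append_right _
        (List.mem_cons_of_mem _ (List.mem_append_left _ ?_))))
      rw [List.mem_map]
      exact ⟨j, List.mem_range.2 hj, rfl⟩))
    exact this.symm
  have gP : ∀ j ≤ KS S, v (eS S + j) = (1 / 2) ^ 2 ^ j := by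
    intro j
    induction j with
    | zero => intro _; simpa using gE
    | succ j ih =>
      intro hj
      rw [← add_assoc, gS j (by omega), ih (by omega), ← pow_add]
      congr 1
      ring
  have gN : v (eS S + KS S + 1) = - v (eS S - 1) := by
    have := gh3 (hg (3, eS S - 1, Ls S, eS S + KS S + 1, 0) (by unfold prog; simp))
    rw [← this, ← hL, g0]; ring
  have gA : v (eS S + KS S) + v (eS S + KS S + 1) = 2 * v (eS S + KS S + 2) :=
    gh2 (hg (2, eS S + KS S, eS S + KS S + 1, eS S + KS S + 2, 0) (by unfold prog; simp))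
  have hn1' : n1 S - 1 = eS S + KS S + 2 := by omega
  rw [hn1'] at hpos
  have hF : v (eS S - 1) < (1 / 2) ^ 2 ^ KS S := by
    rw [gP (KS S) le_rfl, gN] at gA
    linarith
  -- blocks
  set w : ℕ → ℝ := fun i => v ((svars (TS S)).idxOf i) with hw
  have hblk : ∀ p ∈ (TS S).zipIdx, (p.1.err w) ^ 2 ≤ 256 * v (L + 3 + 6 * p.2 + 4) ∧
      v (L + 3 + 6 * p.2 - 1) + v (L + 3 + 6 * p.2 + 4) = 2 * v (L + 3 + 6 * p.2 + 5) ∧
      0 ≤ v (L + 3 + 6 * p.2 + 4) := by
    intro p hp
    apply block (V := svars (TS S)) (L := L) (b := L + 3 + 6 * p.2) (c := p.1) ?_ g0 g1 g2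
    intro g hgg
    apply hg
    unfold prog
    refine List.mem_append_right _ (List.mem_append_right _ (List.mem_append_left _ ?_))
    rw [List.mem_flatMap]
    exact ⟨p, hp, hgg⟩
  have hidx : ∀ t < m, ∃ c, (c, t) ∈ (TS S).zipIdx := by
    intro t ht
    refine ⟨(TS S)[t]'ht, ?_⟩
    rw [List.mem_zipIdx_iff_getElem?]
    simp [ht]
  have hacc : ∀ t ≤ m, 0 ≤ v (L + 2 + 6 * t) ∧
      ∀ s < t, v (L + 3 + 6 * s + 4) ≤ 2 ^ t * v (L + 2 + 6 * t) := by
    intro t
    induction t with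
    | zero =>
      intro _
      refine ⟨by simp [g2], fun s hs => absurd hs (Nat.not_lt_zero s)⟩
    | succ t ih =>
      intro ht
      obtain ⟨i1, i2⟩ := ih (by omega)
      obtain ⟨c, hc⟩ := hidx t (by omega)
      obtain ⟨-, b2, b3⟩ := hblk (c, t) hc
      simp only at b2 b3
      have e1 : L + 3 + 6 * t - 1 = L + 2 + 6 * t := by omega
      have e2 : L + 3 + 6 * t + 5 = L + 2 + 6 * (t + 1) := by omega
      rw [e1, e2] at b2
      have h2t : (1 : ℝ) ≤ 2 ^ t := one_le_pow₀ (by norm_num)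
      refine ⟨by linarith, fun s hs => ?_⟩
      rcases Nat.lt_succ_iff_lt_or_eq.1 hs with h | h
      · have h3 := i2 s h
        have h4 : (2 : ℝ) ^ t * v (L + 2 + 6 * t) ≤ 2 ^ t * (2 * v (L + 2 + 6 * (t + 1))) := by
          apply mul_le_mul_of_nonneg_left _ (by positivity)
          linarith
        rw [pow_succ]
        linarith
      · subst h
        have h4 : (1 : ℝ) * (2 * v (L + 2 + 6 * (s + 1))) ≤
            2 ^ s * (2 * v (L + 2 + 6 * (s + 1))) := by
          apply mul_le_mul_of_nonneg_right h2t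
          linarith
        rw [pow_succ]
        linarith
  have e0 : eS S - 1 = L + 2 + 6 * m := by omega
  rw [e0] at hF
  have hex : ∃ w', ∀ c ∈ TS S, c.HoldsC (1 / 8) w' := by
      apply holds_of_approx (w := w)
      · intro i hi
        apply hv
        have : (svars (TS S)).idxOf i < (svars (TS S)).length := List.idxOf_lt_length_of_mem hi
        have h5 : L = (svars (TS S)).length := rfl
        omega
      · intro c hc
        obtain ⟨t, ht⟩ := List.mem_iff_getElem?.1 hc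
        have htm : t < m := (List.getElem?_eq_some_iff.1 ht).1
        obtain ⟨b1, -, -⟩ := hblk (c, t) (List.mem_zipIdx_iff_getElem?.2 ht)
        simp only at b1
        obtain ⟨-, i2⟩ := hacc m le_rfl
        have h3 := i2 t htm
        have h2m : (0 : ℝ) < 2 ^ m := by positivity
        have h4 : (c.err w) ^ 2 ≤ 256 * (2 ^ m * (1 / 2) ^ 2 ^ KS S) := by
          have h5 : (2 : ℝ) ^ m * v (L + 2 + 6 * m) ≤ 2 ^ m * (1 / 2) ^ 2 ^ KS S :=
            mul_le_mul_of_nonneg_left hF.le h2m.le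
          linarith
        have hgap : gapK (TS S).length = 11 * m + 7 := rfl
        rw [hgap]
        exact fin_ineq (c.err w) m (KS S) hKS h4
  obtain ⟨w', hw'⟩ := hex
  exact sat_of_bsys (S := S) (w := w') hw'

end Pool.Agent.NPC.R537LR
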